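import Pool.Agent.C4F.StmtsM
import Pool.Agent.Helper81_LoadPoly.Lang

/-!
# Squad C4F (MP_be2f05_lc), rows FLD and STP (helper69)
-/

set_option autoImplicit false

namespace Pool.Agent.C4F.H69

open Pool.Agent.Helper53_CookLevin (PGen scan scan_append)
open Pool.Agent.Helper53_Chan (Test)

/-- composition with a generator of one variable -/
theorem comp1 {m : ℕ} {F : (Fin m → List Lt) → List Lt} {G : List Lt → List Lt}
    (hG : PGen 1 (fun ρ : Fin 1 → List Lt => G (ρ 0))) (hF : PGen m F) :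
    PGen m (fun ρ => G (F ρ)) :=
  Pool.Agent.Helper53_Chan.PGen.letG hF (K := fun w _ => G w)
    (PGen.rename (fun _ : Fin 1 => (0 : Fin (m + 1))) hG)

/-- the part of a word before the first bar -/
def gF (z : List Lt) : List Lt := z.takeWhile (fun c => decide (c ≠ Lt.bar))

/-- the part of a word after the first bar -/
def hF (z : List Lt) : List Lt := z.drop (gF z ++ [Lt.tick]).length

theorem gF_gen : PGen 1 (fun ρ : Fin 1 → List Lt => gF (ρ 0)) :=
  Pool.Agent.Helper81_LoadPoly.PGen.takeWhile (0 : Fin 1) (fun c => c ≠ Lt.bar)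

theorem hF_gen : PGen 1 (fun ρ : Fin 1 → List Lt => hF (ρ 0)) :=
  Pool.Agent.Helper53_Chan.PGen.dropF (Pool.Agent.Helper53_Chan.PGen.var (0 : Fin 1))
    (PGen.append gF_gen (PGen.const [Lt.tick]))

theorem gF_eq {u : List Lt} (hu : Lt.bar ∉ u) (v : List Lt) : gF (u ++ Lt.bar :: v) = u := by
  unfold gF
  rw [List.takeWhile_append_of_pos, List.takeWhile_cons_of_neg, List.append_nil]
  · simp
  · intro a ha
    simp only [ne_eq, decide_not, Bool.not_eq_eq_eq_not, Bool.not_true, decide_eq_false_iff_not]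
    rintro rfl
    exact hu ha

theorem hF_eq {u : List Lt} (hu : Lt.bar ∉ u) (v : List Lt) : hF (u ++ Lt.bar :: v) = v := by
  unfold hF
  rw [gF_eq hu, List.length_append, List.length_singleton, ← List.drop_drop, List.drop_left]
  rfl

/-- row FLD -/
theorem fld : FldStmt :=
  ⟨gF, hF, gF_gen, hF_gen, fun _ v hu => ⟨gF_eq hu v, hF_eq hu v⟩⟩

attribute [irreducible] gF hF

/-! ### The step of the doubling -/

/-- letters written at the letter `d`, depending on the last letter before -/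
def kk (c d : Lt) : Option Lt → List Lt
  | none => [c, d]
  | some Lt.bar => [c, d]
  | some _ => [d]

/-- insert the letter `c` at the beginning and after every bar except the last -/
def ins (c : Lt) (w : List Lt) : List Lt := scan (fun p d => kk c d p.getLast?) [] w

theorem ins_gen (c : Lt) : PGen 1 (fun ρ : Fin 1 → List Lt => ins c (ρ 0)) :=
  PGen.loop (0 : Fin 1) (fun d (ρ : Fin 2 → List Lt) => kk c d (ρ 0).getLast?)
    (fun d => PGen.caseLast (0 : Fin 2) (fun o _ => kk c d o) (fun _ => PGen.const _))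

theorem scan_rest (c : Lt) : ∀ (s q : List Lt), Lt.bar ∉ s → (∃ e, e ≠ Lt.bar ∧ q.getLast? = some e) →
    scan (fun p d => kk c d p.getLast?) q (s ++ [Lt.bar]) = s ++ [Lt.bar]
  | [], q, _, ⟨e, he, hq⟩ => by
    rw [List.nil_append, scan, scan, hq]
    cases e <;> first | rfl | exact absurd rfl he
  | d :: s, q, hs, ⟨e, he, hq⟩ => by
    have hd : d ≠ Lt.bar := fun h => hs (by simp [h])
    have hs' : Lt.bar ∉ s := fun h => hs (by simp [h])
    rw [List.cons_append, scan, scan_rest c s (q ++ [d]) hs' ⟨d, hd, by simp⟩, hq]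
    cases e <;> first | rfl | exact absurd rfl he

theorem scan_block (c : Lt) (s p : List Lt) (hs : Lt.bar ∉ s)
    (hp : p = [] ∨ p.getLast? = some Lt.bar) :
    scan (fun p d => kk c d p.getLast?) p (s ++ [Lt.bar]) = c :: (s ++ [Lt.bar]) := by
  have hk : ∀ d, kk c d p.getLast? = [c, d] := by
    intro d
    rcases hp with h | h
    · rw [h]
      rfl
    · rw [h]
      rfl
  cases s with
  | nil =>
    rw [List.nil_append, scan, scan, hk]
    rfl
  | cons d s =>
    have hd : d ≠ Lt.bar := fun h => hs (by simp [h])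
    have hs' : Lt.bar ∉ s := fun h => hs (by simp [h])
    rw [List.cons_append, scan, scan_rest c s (p ++ [d]) hs' ⟨d, hd, by simp⟩, hk]
    rfl

theorem scan_blocks (c : Lt) {α : Type} (str : α → List Lt) (hstr : ∀ x, Lt.bar ∉ str x) :
    ∀ (L : List α) (p : List Lt), (p = [] ∨ p.getLast? = some Lt.bar) →
    scan (fun p d => kk c d p.getLast?) p (L.flatMap fun x => str x ++ [Lt.bar]) =
      L.flatMap fun x => c :: (str x ++ [Lt.bar])
  | [], _, _ => rfl
  | x :: L, p, hp => by
    rw [List.flatMap_cons, List.flatMap_cons, scan_append, scan_block c _ p (hstr x) hp,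
      scan_blocks c str hstr L _ (Or.inr (by simp))]

/-- the bit string of `x` -/
def st (b x : ℕ) : List Lt :=
  (List.range b).map fun t => if x.testBit (b - 1 - t) then Lt.pos else Lt.neg

theorem st_bar (b x : ℕ) : Lt.bar ∉ st b x := by
  intro h
  obtain ⟨t, -, ht⟩ := List.mem_map.1 h
  split_ifs at ht

theorem en_eq (b : ℕ) : en b = (List.range (2 ^ b)).flatMap fun x => st b x ++ [Lt.bar] := rfl

theorem st_succ (b x : ℕ) :
    st (b + 1) x = (if x.testBit b then Lt.pos else Lt.neg) :: (List.range b).map fun t =>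
      if x.testBit (b - 1 - t) then Lt.pos else Lt.neg := by
  unfold st
  rw [List.range_succ_eq_map, List.map_cons, List.map_map]
  congr 1
  refine List.map_congr_left fun t _ => ?_
  simp only [Function.comp, Nat.succ_eq_add_one]
  rw [show b + 1 - 1 - (t + 1) = b - 1 - t by omega]

theorem st_lo (b x : ℕ) (hx : x < 2 ^ b) : st (b + 1) x = Lt.neg :: st b x := by
  rw [st_succ, Nat.testBit_lt_two_pow hx]
  rfl

theorem st_hi (b x : ℕ) (hx : x < 2 ^ b) : st (b + 1) (2 ^ b + x) = Lt.pos :: st b x := by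
  rw [st_succ]
  have h1 : (2 ^ b + x).testBit b = true := by
    rw [Nat.testBit_two_pow_add_eq, Nat.testBit_lt_two_pow hx]
    rfl
  rw [h1]
  unfold st
  rw [if_pos rfl]
  congr 1
  refine List.map_congr_left fun t ht => ?_
  have ht' := List.mem_range.1 ht
  rw [Nat.testBit_two_pow_add_gt (by omega)]

theorem en_succ (b : ℕ) : en (b + 1) = ins Lt.neg (en b) ++ ins Lt.pos (en b) := by
  have h1 : ∀ c, ins c (en b) =
      (List.range (2 ^ b)).flatMap fun x => c :: (st b x ++ [Lt.bar]) := fun c =>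
    scan_blocks c (st b) (st_bar b) _ [] (Or.inl rfl)
  rw [h1, h1, en_eq, pow_succ, mul_two, List.range_add, List.flatMap_append, List.flatMap_map]
  congr 1
  · refine List.flatMap_congr fun x hx => ?_
    rw [st_lo b x (List.mem_range.1 hx)]
    rfl
  · refine List.flatMap_congr fun x hx => ?_
    rw [st_hi b x (List.mem_range.1 hx)]
    rfl

/-- one step of the doubling -/
def stepF (z : List Lt) : List Lt :=
  gF z ++ ([Lt.bar] ++ (gF (hF z) ++ ([Lt.bar] ++ (gF (hF (hF z)) ++ ([Lt.bar] ++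
    (gF (hF (hF (hF z))) ++ ([Lt.bar] ++ (gF (hF (hF (hF (hF z)))) ++ ([Lt.bar] ++
      ((gF (hF (hF (hF (hF (hF z)))))).drop [Lt.tick].length ++ ([Lt.bar] ++
        (ins Lt.neg (hF (hF (hF (hF (hF (hF z)))))) ++
          ins Lt.pos (hF (hF (hF (hF (hF (hF z))))))))))))))))))

theorem stepF_gen : PGen 1 (fun ρ : Fin 1 → List Lt => stepF (ρ 0)) := by
  have b : PGen 1 (fun _ : Fin 1 → List Lt => [Lt.bar]) := PGen.const _
  have h1 := comp1 hF_gen (Pool.Agent.Helper53_Chan.PGen.var (C := Lt) (0 : Fin 1))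
  have h2 := comp1 hF_gen h1
  have h3 := comp1 hF_gen h2
  have h4 := comp1 hF_gen h3
  have h5 := comp1 hF_gen h4
  have h6 := comp1 hF_gen h5
  exact PGen.append gF_gen (PGen.append b (PGen.append (comp1 gF_gen h1) (PGen.append b
    (PGen.append (comp1 gF_gen h2) (PGen.append b (PGen.append (comp1 gF_gen h3) (PGen.append b
    (PGen.append (comp1 gF_gen h4) (PGen.append b (PGen.append
      (Pool.Agent.Helper53_Chan.PGen.dropF (comp1 gF_gen h5) (PGen.const [Lt.tick]))
      (PGen.append b (PGen.append (comp1 (ins_gen Lt.neg) h6)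
        (comp1 (ins_gen Lt.pos) h6)))))))))))))

section parse

variable {w : Fin 6 → List Lt} (hw : NoBar w) (a b : ℕ)
include hw

theorem parse :
    gF (zs w a b) = w 0 ∧ gF (hF (zs w a b)) = w 1 ∧ gF (hF (hF (zs w a b))) = w 2 ∧
    gF (hF (hF (hF (zs w a b)))) = w 3 ∧ gF (hF (hF (hF (hF (zs w a b))))) = w 4 ∧
    gF (hF (hF (hF (hF (hF (zs w a b)))))) = List.replicate a Lt.tick ∧
    hF (hF (hF (hF (hF (hF (zs w a b)))))) = en b := by
  have h0 : Lt.bar ∉ w 0 := hw 0 (by decide)
  have h1 : Lt.bar ∉ w 1 := hw 1 (by decide)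
  have h2 : Lt.bar ∉ w 2 := hw 2 (by decide)
  have h3 : Lt.bar ∉ w 3 := hw 3 (by decide)
  have h4 : Lt.bar ∉ w 4 := hw 4 (by decide)
  have h5 : Lt.bar ∉ List.replicate a Lt.tick := by
    intro h
    have := List.eq_of_mem_replicate h
    exact absurd this (by decide)
  unfold zs
  rw [gF_eq h0, hF_eq h0, gF_eq h1, hF_eq h1, gF_eq h2, hF_eq h2, gF_eq h3, hF_eq h3, gF_eq h4,
    hF_eq h4, gF_eq h5, hF_eq h5]
  exact ⟨rfl, rfl, rfl, rfl, rfl, rfl, rfl⟩

end parse

/-- the counter is not empty -/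
def tT (z : List Lt) : Prop := gF (hF (hF (hF (hF (hF z))))) ≠ []

theorem tT_test : Test 1 (fun ρ : Fin 1 → List Lt => tT (ρ 0)) := by
  classical
  have h1 := comp1 hF_gen (Pool.Agent.Helper53_Chan.PGen.var (C := Lt) (0 : Fin 1))
  have h5 := comp1 gF_gen (comp1 hF_gen (comp1 hF_gen (comp1 hF_gen (comp1 hF_gen h1))))
  refine ⟨_, Test.ite (Test.empty h5) (PGen.const [Lt.tick]) (PGen.const []), fun ρ => ?_⟩
  by_cases h : gF (hF (hF (hF (hF (hF (ρ 0)))))) = []
  · simp [tT, h]
  · simp [tT, h]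

/-- row STP -/
theorem stp : StpStmt := by
  refine ⟨stepF, tT, stepF_gen, tT_test, fun w a b hw => ⟨?_, ?_, ?_⟩⟩
  · unfold tT
    rw [(parse hw 0 b).2.2.2.2.2.1]
    simp
  · unfold tT
    rw [(parse hw (a + 1) b).2.2.2.2.2.1]
    simp
  · obtain ⟨h0, h1, h2, h3, h4, h5, h6⟩ := parse hw (a + 1) b
    unfold stepF
    rw [h0, h1, h2, h3, h4, h5, h6]
    unfold zs
    rw [en_succ]
    simp only [List.length_singleton, List.replicate_succ, List.drop_succ_cons, List.drop_zero,
      List.cons_append, List.nil_append]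

/-! ### Stage B -/

/-- the six words -/
def parts (z : List Lt) : Fin 6 → List Lt :=
  ![gF z, gF (hF z), gF (hF (hF z)), gF (hF (hF (hF z))), gF (hF (hF (hF (hF z)))),
    hF (hF (hF (hF (hF (hF z)))))]

theorem parts_gen : ∀ i : Fin 6, PGen 1 (fun ρ : Fin 1 → List Lt => parts (ρ 0) i) := by
  have h0 := Pool.Agent.Helper53_Chan.PGen.var (C := Lt) (0 : Fin 1)
  have h1 := comp1 hF_gen h0
  have h2 := comp1 hF_gen h1
  have h3 := comp1 hF_gen h2
  have h4 := comp1 hF_gen h3
  have h5 := comp1 hF_gen h4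
  have h6 := comp1 hF_gen h5
  have k1 := comp1 gF_gen h1
  have k2 := comp1 gF_gen h2
  have k3 := comp1 gF_gen h3
  have k4 := comp1 gF_gen h4
  intro i
  match i with
  | 0 => exact gF_gen
  | 1 => exact k1
  | 2 => exact k2
  | 3 => exact k3
  | 4 => exact k4
  | 5 => exact h6

theorem parts_eq {w : Fin 6 → List Lt} (hw : NoBar w) (b : ℕ) (hb : w 5 = en b) :
    parts (zs w 0 b) = w := by
  obtain ⟨e0, e1, e2, e3, e4, -, e6⟩ := parse hw 0 b
  unfold parts
  rw [e0, e1, e2, e3, e4, e6, ← hb]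
  funext i
  fin_cases i <;> rfl

/-- row BGN, with the hypotheses `SubStmt`, `MtxStmt` -/
theorem bgn (sub : SubStmt) (mtx : MtxStmt) : BgnStmt := by
  refine ⟨fun z => mxw (parts z), ?_, fun w b hw hb => ?_⟩
  · exact sub 6 1 mxw (fun i ρ => parts (ρ 0) i) mtx parts_gen
  · show mxw (parts (zs w 0 b)) = mxw w
    rw [parts_eq hw b hb]

end Pool.Agent.C4F.H69
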