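import Pool.Agent.Helper69_C4F.Fld

/-!
# Squad C4F (MP_be2f05_lc), row A2: the doubling machine (helper69)
-/

set_option autoImplicit false

namespace Pool.Agent.C4F.H69

open Turing

theorem runs_mono {Γ Δ : Type} {M : TM2ComputableAux Γ Δ} {w : List Γ} {v : List Δ} {t t' : ℕ}
    (h : Runs M w v t) (ht : t ≤ t') : Runs M w v t' := by
  obtain ⟨h⟩ := h
  exact ⟨⟨h.toEvalsTo, h.steps_le_m.trans ht⟩⟩

theorem st_length (b x : ℕ) : (st b x).length = b := by
  simp [st]

theorem en_length (b : ℕ) : (en b).length = (b + 1) * 2 ^ b := by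
  rw [en_eq, List.length_flatMap]
  have h : (List.range (2 ^ b)).map (fun x => (st b x ++ [Lt.bar]).length) =
      List.replicate (2 ^ b) (b + 1) := by
    rw [List.eq_replicate_iff]
    refine ⟨by simp, fun y hy => ?_⟩
    obtain ⟨x, -, rfl⟩ := List.mem_map.1 hy
    rw [List.length_append, st_length, List.length_singleton]
  rw [h, List.sum_replicate, smul_eq_mul, Nat.mul_comm]

theorem zs_length (w : Fin 6 → List Lt) (a b : ℕ) :
    (zs w a b).length = (w 0).length + (w 1).length + (w 2).length + (w 3).length +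
      (w 4).length + a + (b + 1) * 2 ^ b + 6 := by
  unfold zs
  simp only [List.length_append, List.length_cons, List.length_replicate, en_length]
  omega

theorem zs_le (w : Fin 6 → List Lt) (b j : ℕ) (hj : j ≤ b) :
    (zs w (b - j) j).length ≤ (zs w 0 b).length := by
  rw [zs_length, zs_length]
  obtain ⟨d, rfl⟩ := Nat.exists_eq_add_of_le hj
  have h1 : 2 ^ j ≤ 2 ^ (j + d) := Nat.pow_le_pow_right (by norm_num) (by omega)
  have h2 : 1 ≤ 2 ^ (j + d) := Nat.one_le_two_pow
  have h3 : (j + 1) * 2 ^ j + d ≤ (j + d + 1) * 2 ^ (j + d) := by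
    calc (j + 1) * 2 ^ j + d = (j + 1) * 2 ^ j + d * 1 := by rw [mul_one]
      _ ≤ (j + 1) * 2 ^ (j + d) + d * 2 ^ (j + d) :=
          Nat.add_le_add (Nat.mul_le_mul_left _ h1) (Nat.mul_le_mul_left _ h2)
      _ = (j + d + 1) * 2 ^ (j + d) := by ring
  have h4 : j + d - j = d := by omega
  rw [h4]
  omega

/-- row A2, with the hypothesis `ItrStmt` -/
theorem a2 (itr : ItrStmt) : A2Stmt := by
  obtain ⟨F, T, hF, hT, h⟩ := stp
  obtain ⟨M, P, hM⟩ := itr F T hF hT
  refine ⟨M, (Polynomial.X + 1) * P, fun w b hw => ?_⟩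
  have h1 := hM (fun j => zs w (b - j) j) b (zs w 0 b).length (fun j hj => ?_) ?_
    (fun j hj => zs_le w b j hj)
  · simp only [Nat.sub_zero, Nat.sub_self] at h1
    refine runs_mono h1 ?_
    rw [Polynomial.eval_mul]
    refine Nat.mul_le_mul_right _ ?_
    simp only [Polynomial.eval_add, Polynomial.eval_X, Polynomial.eval_one]
    rw [zs_length]
    have h2 : 1 ≤ 2 ^ b := Nat.one_le_two_pow
    have h3 : (b + 1) * 1 ≤ (b + 1) * 2 ^ b := Nat.mul_le_mul_left _ h2
    omega
  · obtain ⟨-, h3, h4⟩ := h w (b - (j + 1)) j hw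
    have e : b - (j + 1) + 1 = b - j := by omega
    rw [e] at h3 h4
    exact ⟨h3, h4⟩
  · simp only [Nat.sub_self]
    exact (h w 0 b hw).1

end Pool.Agent.C4F.H69
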